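import Mathlib

namespace Pool.Agent.Results.MP_d97def_al.AD
open Finset

variable {G : Type} [Group G]

/-- Finitely additive probability measure on all subsets. -/
def IsMean (m : Set G → ℝ) : Prop :=
  (∀ A, 0 ≤ m A) ∧ m Set.univ = 1 ∧ ∀ A B, Disjoint A B → m (A ∪ B) = m A + m B

/-- Amenability: a left-invariant measure exists. -/
def Amenable (G : Type) [Group G] : Prop :=
  ∃ m : Set G → ℝ, IsMean m ∧ ∀ (g : G) (A : Set G), m ((fun a => g * a) '' A) = m A

/-- Finitely supported probability measures. -/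
def IsProb (μ : G →₀ ℝ) : Prop := (∀ x, 0 ≤ μ x) ∧ ∑ x ∈ μ.support, μ x = 1

open Classical in
/-- `μ(A)`. -/
noncomputable def mass (μ : G →₀ ℝ) (A : Set G) : ℝ := ∑ x ∈ μ.support, if x ∈ A then μ x else 0

/-- `is₁₂(A) = inf_μ sup_y μ(A y)`. -/
noncomputable def is12 (A : Set G) : ℝ :=
  sInf {t | ∃ μ : G →₀ ℝ, IsProb μ ∧ t = ⨆ y : G, mass μ ((fun a => a * y) '' A)}

/-- Partitions of `G` into `n` nonempty pairwise disjoint cells. -/
def IsPartition {n : ℕ} (A : Fin n → Set G) : Prop :=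
  (∀ i, (A i).Nonempty) ∧ (∀ i j, i ≠ j → Disjoint (A i) (A j)) ∧ ⋃ i, A i = Set.univ

def PropA (G : Type) [Group G] : Prop :=
  ∀ n : ℕ, 1 ≤ n → ∀ A : Fin n → Set G, IsPartition A → ∃ i, 1 / (n : ℝ) ≤ is12 (A i)

def PropD (G : Type) [Group G] : Prop :=
  ∀ n : ℕ, 1 ≤ n → ∀ A : Fin n → Set G, IsPartition A → ∃ i, 0 < is12 (A i)

def act (x : G) (m : Set G → ℝ) : Set G → ℝ := fun S => m ((fun g => x * g) ⁻¹' S)

theorem act_mul (x z : G) (m : Set G → ℝ) : act x (act z m) = act (x * z) m := by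
  funext S; simp only [act]; congr 1; ext g; simp [mul_assoc]

theorem act_one (m : Set G → ℝ) : act 1 m = m := by
  funext S; simp [act]

def Good (C : Set (Set G → ℝ)) : Prop :=
  C.Nonempty ∧ IsClosed C ∧ Convex ℝ C ∧ (∀ m ∈ C, IsMean m) ∧ ∀ x, ∀ m ∈ C, act x m ∈ C

omit [Group G] in
theorem compl_eq {m : Set G → ℝ} (h : IsMean m) (S : Set G) : m Sᶜ = 1 - m S := by
  have := h.2.2 S Sᶜ disjoint_compl_right
  rw [Set.union_compl_self, h.2.1] at this; linarith

theorem cpt {C : Set (Set G → ℝ)} (h : Good C) : IsCompact C := by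
  refine (isCompact_univ_pi fun _ : Set G => isCompact_Icc (a := (0 : ℝ)) (b := 1)).of_isClosed_subset
    h.2.1 fun m hm S _ => ⟨(h.2.2.2.1 m hm).1 S, ?_⟩
  have h1 := compl_eq (h.2.2.2.1 m hm) S
  have h2 := (h.2.2.2.1 m hm).1 Sᶜ
  linarith

theorem good_all : Good {m : Set G → ℝ | IsMean m} := by
  classical
  refine ⟨⟨fun S => if (1 : G) ∈ S then 1 else 0, fun A => by dsimp only; split_ifs <;> norm_num, by simp,
    fun A B h => ?_⟩, ?_, ?_, fun m h => h, fun x m h => ⟨fun A => h.1 _, by simpa [act] using h.2.1,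
      fun A B hd => h.2.2 _ _ (hd.preimage _)⟩⟩
  · have : (1 : G) ∈ A → (1 : G) ∉ B := fun h1 => Set.disjoint_left.1 h h1
    by_cases h1 : (1 : G) ∈ A <;> by_cases h2 : (1 : G) ∈ B <;> simp_all
  · simp only [IsMean, Set.setOf_and, Set.setOf_forall]
    refine (isClosed_iInter fun A => isClosed_le continuous_const (continuous_apply A)).inter
      ((isClosed_eq (continuous_apply _) continuous_const).inter (isClosed_iInter fun A =>
        isClosed_iInter fun B => isClosed_iInter fun _ => isClosed_eq (continuous_apply _)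
          ((continuous_apply A).add (continuous_apply B))))
  · intro m hm m' hm' s t hs ht hst
    refine ⟨fun A => ?_, ?_, fun A B h => ?_⟩
    · have := hm.1 A; have := hm'.1 A
      simp only [Pi.add_apply, Pi.smul_apply, smul_eq_mul]; positivity
    · simp [hm.2.1, hm'.2.1, hst]
    · simp only [Pi.add_apply, Pi.smul_apply, smul_eq_mul, hm.2.2 A B h, hm'.2.2 A B h]; ring

theorem exmin : ∃ C : Set (Set G → ℝ), Minimal Good C := by
  obtain ⟨C, _, hC⟩ := zorn_superset_nonempty {C : Set (Set G → ℝ) | Good C} (fun c hc hch hne => by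
    have : Nonempty c := hne.to_subtype
    obtain ⟨C0, h0⟩ := hne
    refine ⟨⋂₀ c, ⟨IsCompact.nonempty_sInter_of_directed_nonempty_isCompact_isClosed
      (fun a ha b hb => ?_) (fun U hU => (hc hU).1) (fun U hU => cpt (hc hU))
      (fun U hU => (hc hU).2.1), isClosed_sInter fun U hU => (hc hU).2.1,
      convex_sInter fun U hU => (hc hU).2.2.1, fun m hm => (hc h0).2.2.2.1 m (hm _ h0),
      fun x m hm U hU => (hc hU).2.2.2.2 x m (hm U hU)⟩, fun s hs => Set.sInter_subset_of_mem hs⟩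
    rcases hch.total ha hb with h | h
    · exact ⟨a, ha, le_rfl, h⟩
    · exact ⟨b, hb, h, le_rfl⟩) _ good_all
  exact ⟨C, hC⟩

theorem mm {C : Set (Set G → ℝ)} (hC : Minimal Good C) (S : Set G) (t : ℝ)
    (ht : ∃ m ∈ C, t < m S) : ∃ μ : G →₀ ℝ, IsProb μ ∧
      ∀ m ∈ C, t ≤ ∑ x ∈ μ.support, μ x * act x m S := by
  classical
  have g := hC.prop
  have hcont : ∀ x : G, Continuous fun m : Set G → ℝ => act x m S := fun x => continuous_apply _
  have h1 : ∀ m ∈ C, ∃ x, t < act x m S := by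
    intro m hm
    by_contra hcon
    push Not at hcon
    have : Good (C ∩ {m | ∀ x, act x m S ≤ t}) := by
      refine ⟨⟨m, hm, hcon⟩, g.2.1.inter ?_, g.2.2.1.inter ?_, fun m h => g.2.2.2.1 m h.1,
        fun z m h => ⟨g.2.2.2.2 z m h.1, fun x => by rw [act_mul]; exact h.2 _⟩⟩
      · simp only [Set.setOf_forall]
        exact isClosed_iInter fun x => isClosed_le (hcont x) continuous_const
      · intro a ha b hb s u hs hu hsu x
        have h1 := mul_le_mul_of_nonneg_left (ha x) hs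
        have h2 := mul_le_mul_of_nonneg_left (hb x) hu
        have h3 : s * t + u * t = t := by rw [← add_mul, hsu, one_mul]
        simp only [act, Pi.add_apply, Pi.smul_apply, smul_eq_mul] at h1 h2 ⊢
        linarith
    obtain ⟨m', hm', hlt⟩ := ht
    have := (hC.le_of_le this Set.inter_subset_left hm').2 1
    rw [act_one] at this; linarith
  obtain ⟨F, hF⟩ := (cpt g).elim_finite_subcover (fun x : G => {m | t < act x m S})
    (fun x => isOpen_lt continuous_const (hcont x)) (fun m hm => Set.mem_iUnion.2 (h1 m hm))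
  let φ : (Set G → ℝ) →ₗ[ℝ] (F → ℝ) :=
    { toFun := fun m x => act (x : G) m S, map_add' := fun _ _ => rfl, map_smul' := fun _ _ => rfl }
  obtain ⟨l, u, v, a1, a2, a3⟩ := geometric_hahn_banach_compact_closed (s := φ '' C)
    (t := Set.Iic (fun _ => t)) (g.2.2.1.linear_image φ)
    ((cpt g).image (continuous_pi fun x => hcont x)) (convex_Iic _) isClosed_Iic (by
      rw [Set.disjoint_left]
      rintro _ ⟨m, hm, rfl⟩ hle
      obtain ⟨x, hx, hlt⟩ := Set.mem_iUnion₂.1 (hF hm)
      exact absurd (hle ⟨x, hx⟩) (not_le.2 hlt))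
  let w : F → ℝ := fun x => - l (Pi.single x 1)
  have hl : ∀ b : F → ℝ, l b = - ∑ x, w x * b x := by
    intro b
    conv_lhs => rw [← Finset.univ_sum_single b]
    rw [map_sum, ← Finset.sum_neg_distrib]
    refine Finset.sum_congr rfl fun x _ => ?_
    have : Pi.single x (b x) = b x • (Pi.single x 1 : F → ℝ) := by
      rw [← Pi.single_smul', smul_eq_mul, mul_one]
    rw [this, map_smul]; simp [w, mul_comm]
  have hw : ∀ x, 0 ≤ w x := by
    intro x
    by_contra hneg
    push Not at hneg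
    have h0 := a3 (fun _ => t) (Set.mem_Iic.2 le_rfl)
    set s := (l (fun _ => t) - v) / (-w x) with hs
    have hs0 : 0 ≤ s := div_nonneg (by linarith) (by linarith)
    have h2 := a3 ((fun _ => t) - s • (Pi.single x 1 : F → ℝ)) (fun y => by
      simp only [Pi.sub_apply, Pi.smul_apply, smul_eq_mul, Pi.single_apply]
      split_ifs <;> linarith)
    rw [map_sub, map_smul, smul_eq_mul] at h2
    have h3 : l (Pi.single x 1) = - w x := by simp [w]
    rw [h3, hs, div_mul_cancel₀ _ (by linarith)] at h2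
    linarith
  set W := ∑ x, w x with hW
  have key : ∀ m ∈ C, W * t < ∑ x : F, w x * act (x : G) m S := by
    intro m hm
    have h2 := a1 _ ⟨m, hm, rfl⟩
    have h3 := a3 (fun _ => t) (Set.mem_Iic.2 le_rfl)
    rw [hl] at h2 h3
    rw [← Finset.sum_mul] at h3
    have : ∑ x : F, w x * φ m x = ∑ x : F, w x * act (x : G) m S := rfl
    linarith
  have hW0 : 0 < W := by
    rcases (Finset.sum_nonneg fun x _ => hw x : 0 ≤ W).lt_or_eq with h | h
    · exact h
    · obtain ⟨m, hm⟩ := g.1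
      have h2 := key m hm
      have h3 := (Finset.sum_eq_zero_iff_of_nonneg fun x _ => hw x).1 h.symm
      rw [Finset.sum_eq_zero fun x hx => by rw [h3 x hx, zero_mul], hW, ← h] at h2
      simp at h2
  let μ : G →₀ ℝ := Finsupp.onFinset F (fun x => if h : x ∈ F then w ⟨x, h⟩ / W else 0)
    (fun x hx => by by_contra h; simp [h] at hx)
  have hμ : ∀ f : G → ℝ, ∑ x ∈ μ.support, μ x * f x = (∑ x : F, w x * f x) / W := by
    intro f
    rw [Finset.sum_subset (Finsupp.support_onFinset_subset) (fun x _ hx => by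
      rw [Finsupp.notMem_support_iff.1 hx, zero_mul]), ← Finset.sum_coe_sort, Finset.sum_div]
    refine Finset.sum_congr rfl fun x _ => ?_
    simp only [μ, Finsupp.onFinset_apply, x.2, dif_pos]; ring
  refine ⟨μ, ⟨fun x => ?_, ?_⟩, fun m hm => ?_⟩
  · simp only [μ, Finsupp.onFinset_apply]
    split_ifs
    · exact div_nonneg (hw _) hW0.le
    · exact le_rfl
  · have := hμ fun _ => 1
    simp only [mul_one] at this
    rw [this, div_self hW0.ne']
  · rw [hμ, le_div_iff₀ hW0, mul_comm]; exact (key m hm).le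

theorem small {C : Set (Set G → ℝ)} (hC : Minimal Good C) (S : Set G) (t : ℝ)
    (ht : ∃ m ∈ C, t < m S) (m0 : Set G → ℝ) (h0 : m0 ∈ C) (A : Set G)
    (hA : ∀ z ∈ A, act z m0 S ≤ t) : is12 A ≤ 0 ∧ A ≠ Set.univ := by
  classical
  have g := hC.prop
  obtain ⟨mx, hmx, hmax⟩ := (cpt g).exists_isMaxOn g.1 (continuous_apply S).continuousOn
  set β := mx S
  have hβ : t < β := by obtain ⟨m, hm, h⟩ := ht; exact h.trans_le (hmax hm)
  have key : ∀ ε : ℝ, 0 < ε → ∃ μ : G →₀ ℝ, IsProb μ ∧
      ∀ y, mass μ ((fun a => a * y) '' A) ≤ ε := by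
    intro ε hε
    have hp : 0 < ε * (β - t) := mul_pos hε (by linarith)
    obtain ⟨μ, h1, h2⟩ := mm hC S (β - ε * (β - t)) ⟨mx, hmx, by linarith⟩
    refine ⟨μ, h1, fun y => ?_⟩
    have h3 := h2 _ (g.2.2.2.2 y⁻¹ m0 h0)
    have h4 : ∑ x ∈ μ.support, μ x * act x (act y⁻¹ m0) S ≤ ∑ x ∈ μ.support,
        (μ x * β - (β - t) * if x ∈ (fun a => a * y) '' A then μ x else 0) := by
      refine Finset.sum_le_sum fun x _ => ?_
      rw [act_mul]
      split_ifs with h
      · obtain ⟨a, ha, rfl⟩ := h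
        have := mul_le_mul_of_nonneg_left (hA a ha) (h1.1 (a * y))
        simp only [mul_inv_cancel_right]; linarith
      · have := mul_le_mul_of_nonneg_left (hmax (g.2.2.2.2 (x * y⁻¹) m0 h0)) (h1.1 x)
        simpa using this
    rw [Finset.sum_sub_distrib, ← Finset.sum_mul, h1.2, ← Finset.mul_sum] at h4
    have h5 : (β - t) * mass μ ((fun a => a * y) '' A) ≤ (β - t) * ε := by
      unfold mass; linarith
    exact le_of_mul_le_mul_left h5 (by linarith)
  constructor
  · refine le_of_forall_pos_le_add fun ε hε => ?_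
    obtain ⟨μ, h1, h2⟩ := key ε hε
    rw [zero_add]
    refine csInf_le_of_le ⟨0, ?_⟩ ⟨μ, h1, rfl⟩ (ciSup_le h2)
    rintro _ ⟨ν, h3, rfl⟩
    exact Real.iSup_nonneg fun y => Finset.sum_nonneg fun x _ => by
      split_ifs
      · exact h3.1 x
      · exact le_rfl
  · rintro rfl
    obtain ⟨μ, h1, h2⟩ := key (1 / 2) (by norm_num)
    have := h2 1
    simp only [mass, mul_one, Set.image_id', Set.mem_univ, if_true, h1.2] at this
    norm_num at this

theorem main (G : Type) [Group G] (h : PropD G) : Amenable G := by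
  obtain ⟨C, hC⟩ := exmin (G := G)
  have g := hC.prop
  obtain ⟨m0, h0⟩ := g.1
  by_contra hna
  obtain ⟨m1, h1, S, hS⟩ : ∃ m1 ∈ C, ∃ S, m1 S ≠ m0 S := by
    by_contra hc
    push Not at hc
    refine hna ⟨m0, g.2.2.2.1 m0 h0, fun x A => ?_⟩
    rw [← hc _ (g.2.2.2.2 x m0 h0)]
    simp only [act]
    rw [Set.preimage_image_eq _ (mul_right_injective x)]
  set t := (m0 S + m1 S) / 2
  have e1 : ∃ m ∈ C, t < m S := by
    rcases lt_or_gt_of_ne hS with h | h
    · exact ⟨m0, h0, by simp only [t]; linarith⟩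
    · exact ⟨m1, h1, by simp only [t]; linarith⟩
  have e2 : ∃ m ∈ C, 1 - t < m Sᶜ := by
    rcases lt_or_gt_of_ne hS with h | h
    · exact ⟨m1, h1, by rw [compl_eq (g.2.2.2.1 _ h1)]; simp only [t]; linarith⟩
    · exact ⟨m0, h0, by rw [compl_eq (g.2.2.2.1 _ h0)]; simp only [t]; linarith⟩
  let A : Set G := {z | act z m0 S ≤ t}
  have a1 := small hC S t e1 m0 h0 A fun z hz => hz
  have a2 := small hC Sᶜ (1 - t) e2 m0 h0 Aᶜ fun z hz => by
    rw [compl_eq (g.2.2.2.1 _ (g.2.2.2.2 z m0 h0))]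
    have : t < act z m0 S := not_le.1 hz
    linarith
  obtain ⟨i, hi⟩ := h 2 (by norm_num) ![A, Aᶜ] ⟨fun i => by
    fin_cases i
    · exact Set.nonempty_iff_ne_empty.2 (by simpa using a2.2)
    · exact Set.nonempty_compl.2 a1.2, fun i j hij => by
    fin_cases i <;> fin_cases j <;> simp_all [disjoint_compl_right, disjoint_compl_left], by
    ext z; simp [Fin.exists_fin_two, em]⟩
  fin_cases i
  · exact absurd a1.1 (not_le.2 hi)
  · exact absurd a2.1 (not_le.2 hi)

theorem result (G : Type) [Group G] : (PropA G → Amenable G) ∧ (PropD G → Amenable G) := by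
  refine ⟨fun h => main G fun n hn A hA => ?_, main G⟩
  obtain ⟨i, hi⟩ := h n hn A hA
  exact ⟨i, lt_of_lt_of_le (by positivity) hi⟩

end Pool.Agent.Results.MP_d97def_al.AD
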